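import Pool.Agent.H659.GirthDiamE

/-!
# Girth versus diameter: the girth, and the final statement
-/

set_option autoImplicit false

namespace Pool.Agent.H659.GirthDiam

section girth

variable {ρ M : ℕ} (S : Sys ρ M (ρ + 1)) (S' : Sys ρ M (2 * ρ + 2))

open Classical in
/-- the level function seen from the hub `σ`. -/
noncomputable def fhub (σ : W ρ M (ρ + 1)) : VV ρ M (ρ + 1) (2 * ρ + 2) → ℕ
  | Sum.inl a => min (lev p1 σ a) (ρ + (ρ + 1)) + 1
  | Sum.inr τ => if τ = σ then 0 else ρ + (ρ + 1) + 1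

/-- the level function seen from a block, through the second coordinate. -/
def fblk (y : W ρ M (2 * ρ + 2)) : VV ρ M (ρ + 1) (2 * ρ + 2) → ℕ
  | Sum.inl a => min (lev p2 y a) (ρ + (2 * ρ + 2))
  | Sum.inr _ => 0

/-- for a root adjacent to the hub `τ`: either `τ = σ` and the level is `0`, or the level is
large. -/
lemma root_hub (σ τ : W ρ M (ρ + 1)) (a : Node ρ × QQ ρ M (ρ + 1) (2 * ρ + 2))
    (h1 : a.1.1 = []) (h2 : a.2.1 (W.nil ρ M (ρ + 1)) = τ) :
    (τ = σ ∧ lev p1 σ a = 0) ∨ (τ ≠ σ ∧ ρ + (ρ + 1) ≤ lev p1 σ a) := by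
  by_cases h : τ = σ
  · left
    refine ⟨h, ?_⟩
    have h3 : (p1 a.2)⁻¹ σ = W.nil ρ M (ρ + 1) := by
      rw [Equiv.Perm.inv_eq_iff_eq, ← h, ← h2]; rfl
    unfold lev
    rw [h3, h1]
    simp [W.nil, level, hl, lf, dd]
  · right
    refine ⟨h, ?_⟩
    unfold lev
    rw [h1]
    have h4 : ((p1 a.2)⁻¹ σ).1 ≠ [] := by
      intro h5
      have h6 : (p1 a.2)⁻¹ σ = W.nil ρ M (ρ + 1) := Subtype.ext h5
      rw [Equiv.Perm.inv_eq_iff_eq] at h6
      apply h
      rw [← h2, h6]; rfl
    have := level_root_ge _ h4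
    omega

lemma cycle_hub (hρ : 1 ≤ ρ) {σ : W ρ M (ρ + 1)}
    (c : (GG S S').Walk (Sum.inr σ) (Sum.inr σ)) (hc : c.IsCycle) : 4 * ρ + 4 ≤ c.length := by
  classical
  have h := core c hc (fun _ => True) (fun _ _ => trivial) (fhub σ) (ρ + (ρ + 1) + 1) 0 ?_ ?_ ?_
  · omega
  · rintro (a | τ) (b | τ') - - ⟨-, hab⟩
    · have := lev_lip (S := S) (π := p1) (γ := cr S S') (p1_cr S S') σ hab
      simp only [fhub]; omega
    · rcases root_hub σ τ' a hab.1 hab.2 with h | h
      · simp [fhub, h.1]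
      · simp only [fhub, if_neg h.1]; omega
    · rcases root_hub σ τ b hab.1 hab.2 with h | h
      · simp [fhub, h.1, h.2]
      · simp only [fhub, if_neg h.1]; omega
    · exact absurd hab (by simp [NN])
  · rintro (a | τ) b b' - - - ⟨-, hab⟩ ⟨-, hab'⟩ hlt hb hb'
    · have hla : lev p1 σ a < ρ + (ρ + 1) := by
        simp only [fhub] at hlt; omega
      rcases b with b | τ <;> rcases b' with b' | τ'
      · have e1 : lev p1 σ b ≤ lev p1 σ a := by simp only [fhub] at hb; omega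
        have e2 : lev p1 σ b' ≤ lev p1 σ a := by simp only [fhub] at hb'; omega
        rw [lev_uniq (S := S) (π := p1) (γ := cr S S') (p1_cr S S') σ hla hab hab' e1 e2]
      · exfalso
        rcases root_hub σ τ' a hab'.1 hab'.2 with h | h
        · have e1 : lev p1 σ b = 0 := by simp only [fhub] at hb; omega
          have hroot : a.1.1 = [] := hab'.1
          have hb0 : b.1.1 = [] := (level_zero e1).1
          rcases hab with ⟨d, h5, h6⟩ | ⟨d, h5, h6⟩ | ⟨g, h5, h6, h7⟩
          · rw [hb0] at h5; simp at h5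
          · rw [hroot] at h5; simp at h5
          · rw [hroot] at h5
            have := g.1.2
            rw [← h5] at this
            simp at this
            omega
        · omega
      · exfalso
        rcases root_hub σ τ a hab.1 hab.2 with h | h
        · have e1 : lev p1 σ b' = 0 := by simp only [fhub] at hb'; omega
          have hroot : a.1.1 = [] := hab.1
          have hb0 : b'.1.1 = [] := (level_zero e1).1
          rcases hab' with ⟨d, h5, h6⟩ | ⟨d, h5, h6⟩ | ⟨g, h5, h6, h7⟩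
          · rw [hb0] at h5; simp at h5
          · rw [hroot] at h5; simp at h5
          · rw [hroot] at h5
            have := g.1.2
            rw [← h5] at this
            simp at this
            omega
        · omega
      · have e1 : a.2.1 (W.nil ρ M (ρ + 1)) = τ := hab.2
        have e2 : a.2.1 (W.nil ρ M (ρ + 1)) = τ' := hab'.2
        rw [← e1, ← e2]
    · have hτ : τ = σ := by
        by_contra h
        simp [fhub, h] at hlt
      rcases b with b | τ''
      · exfalso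
        simp [fhub, hτ] at hb
      · exact absurd hab (by simp [NN])
  · simp [fhub]

lemma cycle_blk {a0 : Node ρ × QQ ρ M (ρ + 1) (2 * ρ + 2)}
    (c : (GG S S').Walk (Sum.inl a0) (Sum.inl a0)) (hc : c.IsCycle)
    (hno : ∀ σ, Sum.inr σ ∉ c.support) : 4 * ρ + 4 ≤ c.length := by
  classical
  have h := core c hc (fun v => ∃ a, v = Sum.inl a) ?_
    (fblk (a0.2.2 (W.nil ρ M (2 * ρ + 2)))) (ρ + (2 * ρ + 2)) ρ ?_ ?_ ?_
  · omega
  · rintro (a | τ) hv
    · exact ⟨a, rfl⟩
    · exact absurd hv (hno τ)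
  · rintro _ _ ⟨a, rfl⟩ ⟨b, rfl⟩ ⟨-, hab⟩
    exact lev_lip (S := S') (π := p2) (γ := cr S S') (p2_cr S S') _ hab
  · rintro _ _ _ ⟨a, rfl⟩ ⟨b, rfl⟩ ⟨b', rfl⟩ ⟨-, hab⟩ ⟨-, hab'⟩ hlt hb hb'
    simp only [fblk] at hlt hb hb'
    rw [lev_uniq (S := S') (π := p2) (γ := cr S S') (p2_cr S S')
      (a0.2.2 (W.nil ρ M (2 * ρ + 2))) (by omega) hab hab' (by omega) (by omega)]
  · have h1 : (p2 a0.2)⁻¹ (a0.2.2 (W.nil ρ M (2 * ρ + 2))) = W.nil ρ M (2 * ρ + 2) := by
      rw [Equiv.Perm.inv_eq_iff_eq]; rfl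
    have h2 : lev p2 (a0.2.2 (W.nil ρ M (2 * ρ + 2))) a0 = a0.1.1.length := by
      unfold lev
      rw [h1]
      simp [W.nil, level, hl, lf, dd]
    have h3 := a0.1.2
    simp only [fblk]
    rw [h2]
    omega

lemma cycle_all (hρ : 1 ≤ ρ) {x : VV ρ M (ρ + 1) (2 * ρ + 2)} (c : (GG S S').Walk x x)
    (hc : c.IsCycle) : 4 * ρ + 4 ≤ c.length := by
  classical
  by_cases h : ∃ σ, Sum.inr σ ∈ c.support
  · obtain ⟨σ, hσ⟩ := h
    have := cycle_hub S S' hρ (c.rotate _ hσ) (hc.rotate hσ)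
    simpa using this
  · push Not at h
    rcases x with a | σ
    · exact cycle_blk S S' c hc h
    · exact absurd c.start_mem_support (h σ)

end girth

/-- **Girth exceeds the diameter by an arbitrary amount in minimum degree three**: for every
`ρ ≥ 1` there is a finite connected graph with all degrees at least `3`, girth at least `4ρ+4`
and diameter at most `3ρ+4`. -/
theorem main (ρ : ℕ) (hρ : 1 ≤ ρ) : ∃ (V : Type) (_ : Fintype V) (G : SimpleGraph V)
    (_ : DecidableRel G.Adj), G.Connected ∧ (∀ v : V, 3 ≤ G.degree v) ∧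
      4 * ρ + 4 ≤ G.girth ∧ G.diam ≤ 3 * ρ + 4 := by
  classical
  obtain ⟨M, hM, e, he⟩ : ∃ M, 0 < M ∧ ∃ e : W ρ M (ρ + 1) → ℕ → Fin M,
      ∀ x y, (∀ i < ρ + 1 + 1, e x i = e y i) → x = y :=
    ⟨MM ρ (ρ + 1), MM_pos _ _, exists_code ρ (ρ + 1)⟩
  let S : Sys ρ M (ρ + 1) := sysSpec e he
  let S' : Sys ρ M (2 * ρ + 2) := sysTriv ρ M (2 * ρ + 2)
  have hS : Slot S := sysSpec_slot e he
  let F : Fintype (VV ρ M (ρ + 1) (2 * ρ + 2)) := Fintype.ofFinite _
  let D : DecidableRel (GG S S').Adj := Classical.decRel _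
  have hdeg : ∀ v, 3 ≤ (GG S S').degree v := by
    intro v
    obtain ⟨x, y, z, hx, hy, hz, hxy, hxz, hyz⟩ := three_nbrs S S' hρ hM (by omega) v
    unfold SimpleGraph.degree
    apply Finset.two_lt_card_iff.mpr
    exact ⟨x, y, z, by simpa using hx, by simpa using hy, by simpa using hz, hxy, hxz, hyz⟩
  have hconn : (GG S S').Connected := connected S' hS
  refine ⟨_, F, GG S S', D, hconn, hdeg, ?_, ?_⟩
  · have hnt : Nontrivial (VV ρ M (ρ + 1) (2 * ρ + 2)) := by
      obtain ⟨x, y, z, hx, -⟩ := three_nbrs S S' hρ hM (by omega)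
        (Sum.inr (W.nil ρ M (ρ + 1)))
      exact ⟨_, _, hx.ne⟩
    have hac : ¬ (GG S S').IsAcyclic := by
      intro hac
      have htree : (GG S S').IsTree := ⟨hconn, hac⟩
      have h1 := htree.minDegree_eq_one_of_nontrivial
      obtain ⟨v, hv⟩ := (GG S S').exists_minimal_degree_vertex
      have := hdeg v
      omega
    obtain ⟨a, w, hw, hlen⟩ := SimpleGraph.exists_girth_eq_length.mpr hac
    rw [hlen]
    exact cycle_all S S' hρ w hw
  · have := diam_le (s' := 2 * ρ + 2) S' hS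
    omega

end Pool.Agent.H659.GirthDiam
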