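import Mathlib

/-!
# Girth versus diameter: combinatorics of the block tree

Helper file for `S08130`.  Blocks are full binary trees of depth `ρ`; blocks are glued along
generators (involutions) `g = (leaf, colour)`.  `level v x` is the distance, in the resulting
infinite tree, from node `v` of block `x` to the root of the block `[]`.
-/

set_option autoImplicit false

namespace Pool.Agent.H659.GirthDiam

/-- distance between two nodes of the rooted binary tree of `Bool`-lists. -/
def dd : List Bool → List Bool → ℕ
  | [], v => v.length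
  | (_ :: u), [] => u.length + 1
  | (b :: u), (a :: v) => if a = b then dd u v else (u.length + 1) + (v.length + 1)

lemma dd_self : ∀ u, dd u u = 0
  | [] => rfl
  | b :: u => by simp [dd, dd_self u]

lemma dd_nil_left (u : List Bool) : dd [] u = u.length := rfl

lemma dd_nil (u : List Bool) : dd u [] = u.length := by cases u <;> rfl

lemma dd_append (u v : List Bool) (c : Bool) :
    ((v ++ [c]) <+: u ∧ dd u (v ++ [c]) + 1 = dd u v) ∨
      (¬ (v ++ [c]) <+: u ∧ dd u (v ++ [c]) = dd u v + 1) := by
  induction u generalizing v with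
  | nil => right; simp [dd]
  | cons b u ih =>
    cases v with
    | nil =>
      by_cases h : c = b
      · left; subst h; simp [dd, dd_nil]
      · right; simp [dd, h]
    | cons a v =>
      by_cases h : a = b
      · subst h
        simpa [dd] using ih v
      · right; simp [dd, h]; omega

/-- a node `v` different from `u` has a tree-neighbour closer to `u`. -/
lemma exists_closer (u v : List Bool) (h : v ≠ u) :
    (∃ c, (v ++ [c]) <+: u ∧ dd u (v ++ [c]) + 1 = dd u v) ∨
      (∃ w c, v = w ++ [c] ∧ dd u w + 1 = dd u v) := by
  by_cases hp : v <+: u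
  · left
    obtain ⟨w, hw⟩ := hp
    cases w with
    | nil => simp at hw; exact absurd hw h
    | cons c w =>
      have hpre : (v ++ [c]) <+: u := ⟨w, by simpa using hw⟩
      refine ⟨c, hpre, ?_⟩
      rcases dd_append u v c with h1 | h1
      · exact h1.2
      · exact absurd hpre h1.1
  · right
    rcases List.eq_nil_or_concat v with h0 | ⟨w, c, hc⟩
    · subst h0; exact absurd List.nil_prefix hp
    · have hc' : v = w ++ [c] := by simpa using hc
      refine ⟨w, c, hc', ?_⟩
      rcases dd_append u w c with h1 | h1
      · rw [← hc'] at h1; exact absurd h1.1 hp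
      · rw [← hc'] at h1; exact h1.2.symm

/-- generators: a leaf of the block together with a colour. -/
abbrev Gen (ρ M : ℕ) : Type := {l : List Bool // l.length = ρ} × (Fin M × Bool)

variable {ρ M : ℕ}

/-- entry leaf of a word (the root for the empty word). -/
def lf : List (Gen ρ M) → List Bool
  | [] => []
  | g :: _ => g.1.1

/-- entry level of the block `x`. -/
def hl : List (Gen ρ M) → ℕ
  | [] => 0
  | g :: t => hl t + dd (lf t) g.1.1 + 1

/-- level of the node `v` of block `x`. -/
def level (v : List Bool) (x : List (Gen ρ M)) : ℕ := hl x + dd (lf x) v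

/-- reduced words: consecutive letters are different. -/
def red : List (Gen ρ M) → Prop
  | [] => True
  | g :: t => t.head? ≠ some g ∧ red t

lemma hl_cons (g : Gen ρ M) (t : List (Gen ρ M)) : hl (g :: t) = level g.1.1 t + 1 := rfl

lemma lf_length (x : List (Gen ρ M)) : (lf x).length ≤ ρ := by
  cases x with
  | nil => simp [lf]
  | cons g t => simp [lf, g.1.2]

lemma level_lf (x : List (Gen ρ M)) : level (lf x) x = hl x := by
  simp [level, dd_self]

lemma level_leaf_nil (g : Gen ρ M) : level g.1.1 ([] : List (Gen ρ M)) = ρ := by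
  simp [level, hl, lf, dd, g.1.2]

lemma level_leaf_ge (l : List Bool) (hll : l.length = ρ) (x : List (Gen ρ M)) :
    ρ + x.length ≤ level l x := by
  induction x generalizing l with
  | nil => simp [level, hl, lf, dd, hll]
  | cons g t ih =>
    have := ih g.1.1 g.1.2
    have h2 : level l (g :: t) = hl (g :: t) + dd g.1.1 l := rfl
    rw [h2, hl_cons, List.length_cons]
    omega

lemma length_le_of_hl {s : ℕ} (x : List (Gen ρ M)) (h : hl x ≤ ρ + s) : x.length ≤ s := by
  cases x with
  | nil => simp
  | cons g t =>
    have := level_leaf_ge g.1.1 g.1.2 t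
    rw [hl_cons] at h
    simp only [List.length_cons]
    omega

/-- level at the root of a non-trivial block. -/
lemma level_root_ge (x : List (Gen ρ M)) (hx : x ≠ []) : 2 * ρ + 1 ≤ level [] x := by
  cases x with
  | nil => exact absurd rfl hx
  | cons g t =>
    have := level_leaf_ge g.1.1 g.1.2 t
    have h2 : level [] (g :: t) = hl (g :: t) + dd g.1.1 [] := rfl
    rw [h2, hl_cons, dd_nil, g.1.2]
    omega

/-- if `head x = g` then the level at the leaf of `g` is the entry level. -/
lemma level_of_head {g : Gen ρ M} {x : List (Gen ρ M)} (h : x.head? = some g) :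
    level g.1.1 x = hl x ∧ level g.1.1 x = level g.1.1 x.tail + 1 := by
  cases x with
  | nil => simp at h
  | cons g' t =>
    simp only [List.head?_cons, Option.some.injEq] at h
    subst h
    refine ⟨level_lf (g' :: t), ?_⟩
    rw [show level g'.1.1 (g' :: t) = hl (g' :: t) from level_lf (g' :: t), hl_cons]
    rfl

/-- the words of the truncated system of size `s`. -/
abbrev W (ρ M s : ℕ) : Type := {x : List (Gen ρ M) // red x ∧ hl x ≤ ρ + s}

instance (s : ℕ) : Finite (W ρ M s) := by
  have : Finite {l : List Bool // l.length = ρ} := by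
    have := List.finite_length_eq Bool ρ
    exact this
  refine Set.Finite.subset (List.finite_length_le (Gen ρ M) s) ?_
  rintro x ⟨-, hx⟩
  exact length_le_of_hl x hx

/-- the empty word. -/
def W.nil (ρ M s : ℕ) : W ρ M s := ⟨[], trivial, by simp [hl]⟩

/-- a completed action of the generators on the words of size `s`. -/
structure Sys (ρ M s : ℕ) where
  a : Gen ρ M → W ρ M s → W ρ M s
  inv : ∀ g x, a g (a g x) = x
  hd : ∀ g x, x.1.head? = some g → (a g x).1 = x.1.tail
  up : ∀ g x, x.1.head? ≠ some g → level g.1.1 x.1 < ρ + s → (a g x).1 = g :: x.1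
  hi : ∀ g x, x.1.head? ≠ some g → ρ + s ≤ level g.1.1 x.1 → ρ + s ≤ level g.1.1 (a g x).1

open Classical in
/-- the completed action from a completion `τ`. -/
noncomputable def actOf (s : ℕ) (τ : Gen ρ M → W ρ M s → W ρ M s) (g : Gen ρ M) (x : W ρ M s) :
    W ρ M s :=
  if h : x.1.head? = some g then
    ⟨x.1.tail, by
      obtain ⟨x, hr, hx⟩ := x
      cases x with
      | nil => simp at h
      | cons g' t =>
        refine ⟨hr.2, ?_⟩
        have : hl t ≤ hl (g' :: t) := by
          rw [hl_cons]; unfold level; omega
        exact this.trans hx⟩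
  else if h2 : level g.1.1 x.1 < ρ + s then
    ⟨g :: x.1, ⟨h, x.2.1⟩, by rw [hl_cons]; omega⟩
  else τ g x

/-- a completion gives a system. -/
noncomputable def sysOf (s : ℕ) (τ : Gen ρ M → W ρ M s → W ρ M s)
    (hτ : ∀ g x, x.1.head? ≠ some g → ρ + s ≤ level g.1.1 x.1 →
      (τ g x).1.head? ≠ some g ∧ ρ + s ≤ level g.1.1 (τ g x).1 ∧ τ g (τ g x) = x) :
    Sys ρ M s where
  a := actOf s τ
  inv := by
    intro g x
    by_cases h : x.1.head? = some g
    · obtain ⟨x, hr, hx⟩ := x
      cases x with
      | nil => simp at h
      | cons g' t =>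
        simp only [List.head?_cons, Option.some.injEq] at h
        subst h
        have h1 : t.head? ≠ some g' := hr.1
        have h2 : level g'.1.1 t < ρ + s := by
          have := hx; rw [hl_cons] at this; omega
        simp [actOf, h1, h2]
    · by_cases h2 : level g.1.1 x.1 < ρ + s
      · simp [actOf, h, h2]
      · have h3 := hτ g x h (by omega)
        have e1 : actOf s τ g x = τ g x := by simp [actOf, h, h2]
        rw [e1]
        have h4 : ¬ level g.1.1 (τ g x).1 < ρ + s := by omega
        have e2 : actOf s τ g (τ g x) = τ g (τ g x) := by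
          simp [actOf, h3.1, h4]
        rw [e2, h3.2.2]
  hd := by
    intro g x h
    simp [actOf, h]
  up := by
    intro g x h h2
    simp [actOf, h, h2]
  hi := by
    intro g x h h2
    have h3 := hτ g x h h2
    have h4 : ¬ level g.1.1 x.1 < ρ + s := by omega
    have e1 : actOf s τ g x = τ g x := by simp [actOf, h, h4]
    rw [e1]; exact h3.2.1

/-- the trivial completion. -/
noncomputable def sysTriv (ρ M s : ℕ) : Sys ρ M s :=
  sysOf s (fun _ x => x) (fun _ _ h h2 => ⟨h, h2, rfl⟩)

namespace Sys

variable {s : ℕ} (S : Sys ρ M s)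

/-- the permutation of a generator. -/
def perm (g : Gen ρ M) : Equiv.Perm (W ρ M s) := ⟨S.a g, S.a g, S.inv g, S.inv g⟩

lemma perm_apply (g : Gen ρ M) (x : W ρ M s) : S.perm g x = S.a g x := rfl

lemma perm_mul_self (g : Gen ρ M) : S.perm g * S.perm g = 1 := by
  ext x : 1
  exact S.inv g x

lemma perm_inv (g : Gen ρ M) : (S.perm g)⁻¹ = S.perm g := by
  rw [inv_eq_iff_mul_eq_one, perm_mul_self]

end Sys

end Pool.Agent.H659.GirthDiam
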