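import Pool.Agent.H659.GirthDiamA

/-!
# Girth versus diameter: the special completion
-/

set_option autoImplicit false

namespace Pool.Agent.H659.GirthDiam

section swap

open Classical in
/-- swap along a partial injective function. -/
noncomputable def swp {α : Type} (R : α → α → Prop) (x : α) : α :=
  if h : ∃ y, R x y then h.choose else if h2 : ∃ y, R y x then h2.choose else x

variable {α : Type} {R : α → α → Prop}

lemma swp_of (hf : ∀ x y z, R x y → R x z → y = z) {x y : α} (h : R x y) : swp R x = y := by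
  have h1 : ∃ y, R x y := ⟨y, h⟩
  unfold swp
  rw [dif_pos h1]
  exact hf _ _ _ h1.choose_spec h

lemma swp_of' (hi : ∀ x y z, R y x → R z x → y = z) (hd : ∀ x y z, R x y → ¬ R y z)
    {x y : α} (h : R x y) : swp R y = x := by
  have h0 : ¬ ∃ z, R y z := by rintro ⟨z, hz⟩; exact hd _ _ _ h hz
  have h1 : ∃ z, R z y := ⟨x, h⟩
  unfold swp
  rw [dif_neg h0, dif_pos h1]
  exact hi _ _ _ h1.choose_spec h

lemma swp_self {x : α} (h0 : ¬ ∃ z, R x z) (h1 : ¬ ∃ z, R z x) : swp R x = x := by
  unfold swp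
  rw [dif_neg h0, dif_neg h1]

lemma swp_swp (hf : ∀ x y z, R x y → R x z → y = z) (hi : ∀ x y z, R y x → R z x → y = z)
    (hd : ∀ x y z, R x y → ¬ R y z) (x : α) : swp R (swp R x) = x := by
  by_cases h0 : ∃ z, R x z
  · obtain ⟨z, hz⟩ := h0
    rw [swp_of hf hz, swp_of' hi hd hz]
  · by_cases h1 : ∃ z, R z x
    · obtain ⟨z, hz⟩ := h1
      rw [swp_of' hi hd hz, swp_of hf hz]
    · rw [swp_self h0 h1, swp_self h0 h1]

end swap

variable {ρ M : ℕ}

/-- pure words along a leaf. -/
def slotW (l : {l : List Bool // l.length = ρ}) (φ : ℕ → Fin M) : ℕ → List (Gen ρ M)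
  | 0 => []
  | n + 1 => (l, (φ n, decide (n % 2 = 0))) :: slotW l φ n

lemma slotW_head_ne (l : {l : List Bool // l.length = ρ}) (φ : ℕ → Fin M) (n : ℕ) :
    (slotW l φ n).head? ≠ some (l, (φ n, decide (n % 2 = 0))) := by
  cases n with
  | zero => simp [slotW]
  | succ n =>
    intro h
    simp only [slotW, List.head?_cons, Option.some.injEq, Prod.mk.injEq, true_and] at h
    have h2 := h.2
    rcases Nat.mod_two_eq_zero_or_one n with h3 | h3
    · have h4 : (n + 1) % 2 = 1 := by omega
      simp [h3, h4] at h2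
    · have h4 : (n + 1) % 2 = 0 := by omega
      simp [h3, h4] at h2

lemma slotW_red (l : {l : List Bool // l.length = ρ}) (φ : ℕ → Fin M) (n : ℕ) :
    red (slotW l φ n) := by
  induction n with
  | zero => trivial
  | succ n ih => exact ⟨slotW_head_ne l φ n, ih⟩

lemma slotW_level (l : {l : List Bool // l.length = ρ}) (φ : ℕ → Fin M) (n : ℕ) :
    level l.1 (slotW l φ n) = ρ + n := by
  induction n with
  | zero => simp [slotW, level, hl, lf, dd, l.2]
  | succ n ih =>
    have h2 : level l.1 (slotW l φ (n + 1)) = hl (slotW l φ (n + 1)) + dd l.1 l.1 := rfl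
    rw [h2, dd_self]
    have h3 : hl (slotW l φ (n + 1)) = level l.1 (slotW l φ n) + 1 := rfl
    rw [h3, ih]; rfl

lemma slotW_hl (l : {l : List Bool // l.length = ρ}) (φ : ℕ → Fin M) (n : ℕ) :
    hl (slotW l φ n) ≤ ρ + n := by
  have h := slotW_level l φ n
  unfold level at h
  omega

lemma slotW_inj (l : {l : List Bool // l.length = ρ}) (φ ψ : ℕ → Fin M) (n : ℕ)
    (h : slotW l φ n = slotW l ψ n) : ∀ i < n, φ i = ψ i := by
  induction n with
  | zero => intro i hi; omega
  | succ n ih =>
    simp only [slotW, List.cons.injEq, Prod.mk.injEq, true_and, and_true] at h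
    intro i hi
    rcases Nat.lt_succ_iff_lt_or_eq.mp hi with h1 | h1
    · exact ih h.2 i h1
    · rw [h1]; exact h.1

section special

variable {s : ℕ} (e : W ρ M s → ℕ → Fin M)

/-- the pairing relation of the special completion. -/
def R (g : Gen ρ M) (x y : W ρ M s) : Prop :=
  ρ + s + 1 ≤ level g.1.1 x.1 ∧ slotW g.1 (e x) (s + 1) = g :: y.1

variable {e}

lemma R_level {g : Gen ρ M} {x y : W ρ M s} (h : R e g x y) :
    level g.1.1 y.1 = ρ + s ∧ y.1.head? ≠ some g := by
  have h2 := h.2
  simp only [slotW, List.cons.injEq] at h2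
  rw [← h2.2]
  refine ⟨slotW_level _ _ _, ?_⟩
  rw [← h2.1]
  exact slotW_head_ne _ _ _

lemma head_ne_of_level {g : Gen ρ M} {x : W ρ M s} (h : ρ + s + 1 ≤ level g.1.1 x.1) :
    x.1.head? ≠ some g := by
  intro h2
  have h3 := (level_of_head h2).1
  have h4 := x.2.2
  omega

lemma R_fun (g : Gen ρ M) (x y z : W ρ M s) (h : R e g x y) (h' : R e g x z) : y = z := by
  have h1 := h.2
  rw [h'.2] at h1
  simp only [List.cons.injEq, true_and] at h1
  exact Subtype.ext h1.symm

lemma R_inj (he : ∀ x y : W ρ M s, (∀ i < s + 1, e x i = e y i) → x = y)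
    (g : Gen ρ M) (x y z : W ρ M s) (h : R e g y x) (h' : R e g z x) : y = z := by
  apply he
  apply slotW_inj g.1
  rw [h.2, h'.2]

lemma R_disj (g : Gen ρ M) (x y z : W ρ M s) (h : R e g x y) : ¬ R e g y z := by
  intro h2
  have h3 := (R_level h).1
  have h4 := h2.1
  omega

/-- the system with the special completion. -/
noncomputable def sysSpec (e : W ρ M s → ℕ → Fin M)
    (he : ∀ x y : W ρ M s, (∀ i < s + 1, e x i = e y i) → x = y) : Sys ρ M s :=
  sysOf s (fun g => swp (R e g)) (by
    intro g x h1 h2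
    refine ⟨?_, ?_, swp_swp (R_fun g) (R_inj he g) (R_disj g) x⟩
    · by_cases h0 : ∃ z, R e g x z
      · obtain ⟨z, hz⟩ := h0
        rw [swp_of (R_fun g) hz]; exact (R_level hz).2
      · by_cases h3 : ∃ z, R e g z x
        · obtain ⟨z, hz⟩ := h3
          rw [swp_of' (R_inj he g) (R_disj g) hz]; exact head_ne_of_level hz.1
        · rw [swp_self h0 h3]; exact h1
    · by_cases h0 : ∃ z, R e g x z
      · obtain ⟨z, hz⟩ := h0
        rw [swp_of (R_fun g) hz, (R_level hz).1]
      · by_cases h3 : ∃ z, R e g z x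
        · obtain ⟨z, hz⟩ := h3
          rw [swp_of' (R_inj he g) (R_disj g) hz]
          have := hz.1; omega
        · rw [swp_self h0 h3]; exact h2)

/-- from a high leaf, one special crossing leads to level `ρ + s`. -/
lemma sysSpec_slot (e : W ρ M s → ℕ → Fin M)
    (he : ∀ x y : W ρ M s, (∀ i < s + 1, e x i = e y i) → x = y)
    (l : {l : List Bool // l.length = ρ}) (x : W ρ M s) (hx : ρ + s + 1 ≤ level l.1 x.1) :
    ∃ g : Gen ρ M, g.1 = l ∧ level l.1 ((sysSpec e he).a g x).1 = ρ + s := by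
  refine ⟨(l, (e x s, decide (s % 2 = 0))), rfl, ?_⟩
  set g : Gen ρ M := (l, (e x s, decide (s % 2 = 0))) with hg
  have hy : hl (slotW l (e x) s) ≤ ρ + s := slotW_hl _ _ _
  have hR : R e g x ⟨slotW l (e x) s, slotW_red _ _ _, hy⟩ := ⟨hx, rfl⟩
  have h1 : x.1.head? ≠ some g := head_ne_of_level (g := g) hx
  have h2 : ¬ level g.1.1 x.1 < ρ + s := by
    have : ρ + s + 1 ≤ level g.1.1 x.1 := hx
    omega
  have e1 : (sysSpec e he).a g x = swp (R e g) x := by
    change actOf s (fun g => swp (R e g)) g x = _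
    unfold actOf
    rw [dif_neg h1, dif_neg h2]
  rw [e1, swp_of (R_fun g) hR]
  exact slotW_level l (e x) s

end special

section embedding

/-- the number of colours. -/
def MM (ρ s : ℕ) : ℕ := (2 ^ ρ * 2 + 1) ^ s

lemma MM_pos (ρ s : ℕ) : 0 < MM ρ s := by unfold MM; positivity

lemma exists_code (ρ s : ℕ) : ∃ e : W ρ (MM ρ s) s → ℕ → Fin (MM ρ s),
    ∀ x y, (∀ i < s + 1, e x i = e y i) → x = y := by
  classical
  set M := MM ρ s with hM
  have hMpos : 0 < M := MM_pos ρ s
  let _inst1 : Fintype {l : List Bool // l.length = ρ} :=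
    inferInstanceAs (Fintype (List.Vector Bool ρ))
  have hcardL : Fintype.card {l : List Bool // l.length = ρ} = 2 ^ ρ := by
    have h := card_vector (α := Bool) ρ
    rw [Fintype.card_bool] at h
    rw [← h]
    exact Fintype.card_congr (Equiv.refl _)
  let _inst2 : Fintype (W ρ M s) := Fintype.ofFinite _
  have hG : Fintype.card (Gen ρ M) = 2 ^ ρ * (M * 2) := by
    simp [hcardL]
  have h1 : Fintype.card (W ρ M s) ≤ Fintype.card (Fin s → Option (Gen ρ M)) := by
    apply Fintype.card_le_of_injective (fun (x : W ρ M s) (i : Fin s) => x.1[(i : ℕ)]?)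
    intro x y hxy
    apply Subtype.ext
    apply List.ext_getElem?
    intro i
    by_cases hi : i < s
    · exact congrFun hxy ⟨i, hi⟩
    · have hx := length_le_of_hl x.1 x.2.2
      have hy := length_le_of_hl y.1 y.2.2
      rw [List.getElem?_eq_none (by omega), List.getElem?_eq_none (by omega)]
  have h2 : Fintype.card (Fin s → Option (Gen ρ M)) = (2 ^ ρ * (M * 2) + 1) ^ s := by
    rw [Fintype.card_fun, Fintype.card_option, hG, Fintype.card_fin]
  have h3 : (2 ^ ρ * (M * 2) + 1) ^ s ≤ M ^ (s + 1) := by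
    calc (2 ^ ρ * (M * 2) + 1) ^ s ≤ ((2 ^ ρ * 2 + 1) * M) ^ s := by
          apply Nat.pow_le_pow_left; nlinarith
      _ = M ^ (s + 1) := by
          rw [mul_pow, pow_succ, mul_comm]
          rfl
  have h4 : Fintype.card (W ρ M s) ≤ Fintype.card (Fin (s + 1) → Fin M) := by
    rw [Fintype.card_fun, Fintype.card_fin, Fintype.card_fin]
    exact h1.trans (h2.le.trans h3)
  obtain ⟨f⟩ := Function.Embedding.nonempty_of_card_le h4
  refine ⟨fun x i => f x (Fin.ofNat (s + 1) i), ?_⟩
  intro x y h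
  apply f.injective
  funext i
  have := h i.1 i.2
  simpa using this

end embedding

end Pool.Agent.H659.GirthDiam
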