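import Pool.Agent.H659.GirthDiamB

/-!
# Girth versus diameter: levels along tree-neighbours
-/

set_option autoImplicit false

namespace Pool.Agent.H659.GirthDiam

variable {ρ M s : ℕ}

/-- nodes of a block. -/
abbrev Node (ρ : ℕ) : Type := {v : List Bool // v.length ≤ ρ}

instance : Finite (Node ρ) := Set.Finite.subset (List.finite_length_le Bool ρ) (fun _ h => h)

section

variable {Q : Type} [Group Q]

/-- tree-neighbours in the product of nodes and group elements. -/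
def TN (γ : Gen ρ M → Q) (a b : Node ρ × Q) : Prop :=
  (∃ c, b.1.1 = a.1.1 ++ [c] ∧ b.2 = a.2) ∨
  (∃ c, a.1.1 = b.1.1 ++ [c] ∧ b.2 = a.2) ∨
  (∃ g : Gen ρ M, a.1.1 = g.1.1 ∧ b.1 = a.1 ∧ b.2 = a.2 * γ g)

lemma TN_symm {γ : Gen ρ M → Q} (hγ : ∀ g, γ g * γ g = 1) {a b : Node ρ × Q} (h : TN γ a b) :
    TN γ b a := by
  rcases h with ⟨c, h1, h2⟩ | ⟨c, h1, h2⟩ | ⟨g, h1, h2, h3⟩
  · exact Or.inr (Or.inl ⟨c, h1, h2.symm⟩)
  · exact Or.inl ⟨c, h1, h2.symm⟩
  · refine Or.inr (Or.inr ⟨g, by rw [h2, h1], h2.symm, ?_⟩)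
    rw [h3, mul_assoc, hγ, mul_one]

/-- the level of a vertex, seen from the word `x0`. -/
def lev (π : Q →* Equiv.Perm (W ρ M s)) (x0 : W ρ M s) (a : Node ρ × Q) : ℕ :=
  level a.1.1 ((π a.2)⁻¹ x0).1

variable {S : Sys ρ M s} {π : Q →* Equiv.Perm (W ρ M s)} {γ : Gen ρ M → Q}

lemma coord_cross (hπ : ∀ g, π (γ g) = S.perm g) (x0 : W ρ M s) (q : Q) (g : Gen ρ M) :
    (π (q * γ g))⁻¹ x0 = S.a g ((π q)⁻¹ x0) := by
  rw [map_mul, mul_inv_rev, hπ, S.perm_inv]; rfl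

lemma cross_level (S : Sys ρ M s) (g : Gen ρ M) (x : W ρ M s) :
    (x.1.head? = some g ∧ level g.1.1 (S.a g x).1 + 1 = level g.1.1 x.1) ∨
    (x.1.head? ≠ some g ∧ level g.1.1 x.1 < ρ + s ∧
      level g.1.1 (S.a g x).1 = level g.1.1 x.1 + 1) ∨
    (x.1.head? ≠ some g ∧ ρ + s ≤ level g.1.1 x.1 ∧ ρ + s ≤ level g.1.1 (S.a g x).1) := by
  by_cases h : x.1.head? = some g
  · left
    refine ⟨h, ?_⟩
    rw [S.hd g x h, (level_of_head h).2]
  · by_cases h2 : level g.1.1 x.1 < ρ + s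
    · right; left
      refine ⟨h, h2, ?_⟩
      rw [S.up g x h h2]
      have h3 : level g.1.1 (g :: x.1) = hl (g :: x.1) + dd g.1.1 g.1.1 := rfl
      rw [h3, dd_self, hl_cons]
    · right; right
      exact ⟨h, by omega, S.hi g x h (by omega)⟩

lemma lev_lip (hπ : ∀ g, π (γ g) = S.perm g) (x0 : W ρ M s) {a b : Node ρ × Q}
    (h : TN γ a b) : min (lev π x0 b) (ρ + s) ≤ min (lev π x0 a) (ρ + s) + 1 := by
  unfold lev
  rcases h with ⟨c, h1, h2⟩ | ⟨c, h1, h2⟩ | ⟨g, h1, h2, h3⟩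
  · rw [h1, h2]
    unfold level
    rcases dd_append (lf ((π a.2)⁻¹ x0).1) a.1.1 c with h3 | h3 <;> omega
  · rw [h1, h2]
    unfold level
    rcases dd_append (lf ((π a.2)⁻¹ x0).1) b.1.1 c with h3 | h3 <;> omega
  · rw [h2, h3, coord_cross hπ, h1]
    rcases cross_level S g ((π a.2)⁻¹ x0) with h4 | h4 | h4 <;> omega

lemma lev_uniq (hπ : ∀ g, π (γ g) = S.perm g) (x0 : W ρ M s) {a b b' : Node ρ × Q}
    (ha : lev π x0 a < ρ + s) (h : TN γ a b) (h' : TN γ a b')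
    (hb : lev π x0 b ≤ lev π x0 a) (hb' : lev π x0 b' ≤ lev π x0 a) : b = b' := by
  -- description of a lower neighbour
  have key : ∀ d : Node ρ × Q, TN γ a d → lev π x0 d ≤ lev π x0 a →
      (∃ c, (a.1.1 ++ [c]) <+: lf ((π a.2)⁻¹ x0).1 ∧ d.1.1 = a.1.1 ++ [c] ∧ d.2 = a.2) ∨
      (¬ a.1.1 <+: lf ((π a.2)⁻¹ x0).1 ∧ d.1.1 = a.1.1.dropLast ∧ d.2 = a.2) ∨
      (∃ g : Gen ρ M, ((π a.2)⁻¹ x0).1.head? = some g ∧ a.1.1 = lf ((π a.2)⁻¹ x0).1 ∧
        d.1.1 = a.1.1 ∧ d.2 = a.2 * γ g) := by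
    intro d hd hle
    unfold lev at hle ha
    rcases hd with ⟨c, h1, h2⟩ | ⟨c, h1, h2⟩ | ⟨g, h1, h2, h3⟩
    · left
      rw [h1, h2] at hle
      unfold level at hle
      rcases dd_append (lf ((π a.2)⁻¹ x0).1) a.1.1 c with h3 | h3
      · exact ⟨c, h3.1, h1, h2⟩
      · omega
    · right; left
      rw [h1, h2] at hle
      unfold level at hle
      rcases dd_append (lf ((π a.2)⁻¹ x0).1) d.1.1 c with h3 | h3
      · omega
      · refine ⟨?_, ?_, h2⟩
        · rw [h1]; exact h3.1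
        · rw [h1]; simp
    · right; right
      rw [h2, h3, coord_cross hπ, h1] at hle
      rw [h1] at ha
      rcases cross_level S g ((π a.2)⁻¹ x0) with h4 | h4 | h4
      · refine ⟨g, h4.1, ?_, by rw [h2], h3⟩
        rw [h1]
        have h5 := h4.1
        cases hx : ((π a.2)⁻¹ x0).1 with
        | nil => rw [hx] at h5; simp at h5
        | cons g' t =>
          rw [hx] at h5
          simp only [List.head?_cons, Option.some.injEq] at h5
          rw [h5]; rfl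
      · omega
      · omega
  rcases key b h hb with ⟨c, h1, h2, h3⟩ | ⟨h1, h2, h3⟩ | ⟨g, h1, h2, h3, h4⟩ <;>
  rcases key b' h' hb' with ⟨c', k1, k2, k3⟩ | ⟨k1, k2, k3⟩ | ⟨g', k1, k2, k3, k4⟩
  · have h5 : a.1.1 ++ [c] = a.1.1 ++ [c'] := by
      have := List.prefix_of_prefix_length_le h1 k1 (by simp)
      exact this.eq_of_length (by simp)
    refine Prod.ext (Subtype.ext ?_) ?_
    · rw [h2, k2, h5]
    · rw [h3, k3]
  · exact absurd ((List.prefix_append _ _).trans h1) k1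
  · rw [← k2] at h1
    have := h1.length_le
    simp at this
  · exact absurd ((List.prefix_append _ _).trans k1) h1
  · refine Prod.ext (Subtype.ext ?_) ?_
    · rw [h2, k2]
    · rw [h3, k3]
  · rw [← k2] at h1
    exact absurd (List.prefix_refl _) h1
  · rw [← h2] at k1
    have := k1.length_le
    simp at this
  · rw [← h2] at k1
    exact absurd (List.prefix_refl _) k1
  · rw [h1] at k1
    simp only [Option.some.injEq] at k1
    subst k1
    refine Prod.ext (Subtype.ext ?_) ?_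
    · rw [h3, k3]
    · rw [h4, k4]

lemma lev_down (hπ : ∀ g, π (γ g) = S.perm g) (x0 : W ρ M s) (a : Node ρ × Q)
    (ha : 0 < lev π x0 a) : ∃ b, TN γ a b ∧ lev π x0 b + 1 = lev π x0 a := by
  by_cases hv : a.1.1 = lf ((π a.2)⁻¹ x0).1
  · cases hx : ((π a.2)⁻¹ x0).1 with
    | nil =>
      unfold lev at ha
      rw [hv, hx] at ha
      simp [level, lf, hl, dd] at ha
    | cons g t =>
      have hg : ((π a.2)⁻¹ x0).1.head? = some g := by rw [hx]; rfl
      have hv' : a.1.1 = g.1.1 := by rw [hv, hx]; rfl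
      refine ⟨(a.1, a.2 * γ g), Or.inr (Or.inr ⟨g, hv', rfl, rfl⟩), ?_⟩
      unfold lev
      simp only
      rw [coord_cross hπ, hv']
      rcases cross_level S g ((π a.2)⁻¹ x0) with h4 | h4 | h4
      · exact h4.2
      · exact absurd hg h4.1
      · exact absurd hg h4.1
  · rcases exists_closer (lf ((π a.2)⁻¹ x0).1) a.1.1 hv with ⟨c, h1, h2⟩ | ⟨w, c, h1, h2⟩
    · have hlen : (a.1.1 ++ [c]).length ≤ ρ := h1.length_le.trans (lf_length _)
      refine ⟨(⟨a.1.1 ++ [c], hlen⟩, a.2), Or.inl ⟨c, rfl, rfl⟩, ?_⟩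
      unfold lev level
      simp only
      omega
    · have hlen : w.length ≤ ρ := by
        have := a.1.2
        rw [h1] at this
        simp at this
        omega
      refine ⟨(⟨w, hlen⟩, a.2), Or.inr (Or.inl ⟨c, h1, rfl⟩), ?_⟩
      unfold lev level
      simp only
      omega

end

end Pool.Agent.H659.GirthDiam
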