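import Pool.Agent.H659.GirthDiamC

/-!
# Girth versus diameter: the graph
-/

set_option autoImplicit false

namespace Pool.Agent.H659.GirthDiam

/-! ### general facts on walks -/

section walks

variable {V : Type} {G : SimpleGraph V}

/-- there is a walk of length at most `n`. -/
def RR (G : SimpleGraph V) (n : ℕ) (a b : V) : Prop := ∃ p : G.Walk a b, p.length ≤ n

lemma RR.symm {n : ℕ} {a b : V} (h : RR G n a b) : RR G n b a := by
  obtain ⟨p, hp⟩ := h
  exact ⟨p.reverse, by simpa using hp⟩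

lemma RR.trans {n m : ℕ} {a b c : V} (h : RR G n a b) (h' : RR G m b c) : RR G (n + m) a c := by
  obtain ⟨p, hp⟩ := h
  obtain ⟨q, hq⟩ := h'
  exact ⟨p.append q, by rw [SimpleGraph.Walk.length_append]; omega⟩

lemma RR.mono {n m : ℕ} {a b : V} (h : RR G n a b) (hm : n ≤ m) : RR G m a b := by
  obtain ⟨p, hp⟩ := h
  exact ⟨p, hp.trans hm⟩

lemma RR_of {a b : V} (h : a ≠ b → G.Adj a b) : RR G 1 a b := by
  by_cases hab : a = b
  · subst hab; exact ⟨SimpleGraph.Walk.nil, by simp⟩
  · exact ⟨(h hab).toWalk, by simp⟩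

lemma walk_lip {A : V → Prop} {f : V → ℕ}
    (hlip : ∀ a b, A a → A b → G.Adj a b → f b ≤ f a + 1) {a b : V} (p : G.Walk a b)
    (hp : ∀ v ∈ p.support, A v) : f b ≤ f a + p.length := by
  induction p with
  | nil => simp
  | @cons u v w h p ih =>
    have h1 := ih (fun x hx => hp x (by simp [hx]))
    have h2 := hlip u v (hp u (by simp)) (hp v (by simp)) h
    rw [SimpleGraph.Walk.length_cons]
    omega

lemma core {x : V} (c : G.Walk x x) (hc : c.IsCycle) (A : V → Prop) (hA : ∀ v ∈ c.support, A v)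
    (f : V → ℕ) (T r : ℕ) (hlip : ∀ a b, A a → A b → G.Adj a b → f b ≤ f a + 1)
    (huniq : ∀ a b b', A a → A b → A b' → G.Adj a b → G.Adj a b' → f a < T → f b ≤ f a →
      f b' ≤ f a → b = b') (hx : f x ≤ r) : 2 * T ≤ c.length + 2 * r := by
  classical
  obtain ⟨m, hm, hmax⟩ := Finset.exists_max_image c.support.toFinset f
    ⟨x, by simp⟩
  rw [List.mem_toFinset] at hm
  have hmax' : ∀ v ∈ c.support, f v ≤ f m := fun v hv => hmax v (by simpa using hv)
  set c' := c.rotate m hm with hc'
  have hcyc : c'.IsCycle := hc.rotate hm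
  have hsup : ∀ v, v ∈ c'.support → v ∈ c.support := by
    intro v hv
    rw [hc', SimpleGraph.Walk.mem_support_rotate_iff] at hv
    exact hv
  have hlen : c'.length = c.length := by simp [hc']
  have hfm : T ≤ f m := by
    by_contra hlt
    push Not at hlt
    have h1 : G.Adj m c'.snd := c'.adj_snd hcyc.not_nil
    have h2 : G.Adj c'.penultimate m := c'.adj_penultimate hcyc.not_nil
    have h3 : c'.snd ∈ c'.support := c'.getVert_mem_support 1
    have h4 : c'.penultimate ∈ c'.support := c'.getVert_mem_support _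
    exact hcyc.snd_ne_penultimate (huniq m _ _ (hA m hm) (hA _ (hsup _ h3)) (hA _ (hsup _ h4))
      h1 h2.symm hlt (hmax' _ (hsup _ h3)) (hmax' _ (hsup _ h4)))
  have e1 := walk_lip hlip (c.takeUntil m hm)
    (fun v hv => hA v (c.support_takeUntil_subset_support hm hv))
  have e2 := walk_lip hlip (c.dropUntil m hm).reverse
    (fun v hv => hA v (c.support_dropUntil_subset_support hm (by simpa using hv)))
  have e3 : (c.takeUntil m hm).length + (c.dropUntil m hm).length = c.length := by
    rw [← SimpleGraph.Walk.length_append, c.take_spec hm]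
  rw [SimpleGraph.Walk.length_reverse] at e2
  omega

end walks

/-! ### the graph -/

section graph

variable {ρ M s s' : ℕ} (S : Sys ρ M s) (S' : Sys ρ M s')

/-- the group. -/
abbrev QQ (ρ M s s' : ℕ) : Type := Equiv.Perm (W ρ M s) × Equiv.Perm (W ρ M s')

/-- the vertices: block nodes and hubs. -/
abbrev VV (ρ M s s' : ℕ) : Type := (Node ρ × QQ ρ M s s') ⊕ W ρ M s

/-- the crossing element of a generator. -/
def cr (g : Gen ρ M) : QQ ρ M s s' := (S.perm g, S'.perm g)

lemma cr_mul_self (g : Gen ρ M) : cr S S' g * cr S S' g = 1 := by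
  unfold cr
  rw [Prod.mk_mul_mk, S.perm_mul_self, S'.perm_mul_self]; rfl

/-- adjacency (up to loops). -/
def NN : VV ρ M s s' → VV ρ M s s' → Prop
  | Sum.inl a, Sum.inl b => TN (cr S S') a b
  | Sum.inl a, Sum.inr σ => a.1.1 = [] ∧ a.2.1 (W.nil ρ M s) = σ
  | Sum.inr σ, Sum.inl a => a.1.1 = [] ∧ a.2.1 (W.nil ρ M s) = σ
  | Sum.inr _, Sum.inr _ => False

lemma NN_symm {a b : VV ρ M s s'} (h : NN S S' a b) : NN S S' b a := by
  rcases a with a | a <;> rcases b with b | b
  · exact TN_symm (cr_mul_self S S') h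
  · exact h
  · exact h
  · exact h

/-- the graph. -/
def GG : SimpleGraph (VV ρ M s s') where
  Adj a b := a ≠ b ∧ NN S S' a b
  symm := ⟨fun _ _ h => ⟨h.1.symm, NN_symm S S' h.2⟩⟩
  loopless := ⟨fun _ h => h.1 rfl⟩

lemma RR_of_NN {a b : VV ρ M s s'} (h : NN S S' a b) : RR (GG S S') 1 a b :=
  RR_of (fun hab => ⟨hab, h⟩)

/-- first projection. -/
abbrev p1 : QQ ρ M s s' →* Equiv.Perm (W ρ M s) := MonoidHom.fst _ _

/-- second projection. -/
abbrev p2 : QQ ρ M s s' →* Equiv.Perm (W ρ M s') := MonoidHom.snd _ _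

lemma p1_cr (g : Gen ρ M) : p1 (cr S S' g) = S.perm g := rfl

lemma p2_cr (g : Gen ρ M) : p2 (cr S S' g) = S'.perm g := rfl

lemma level_zero {v : List Bool} {x : List (Gen ρ M)} (h : level v x = 0) : v = [] ∧ x = [] := by
  unfold level at h
  cases x with
  | nil =>
    have h2 : dd [] v = 0 := by
      have : dd (lf ([] : List (Gen ρ M))) v = 0 := by omega
      exact this
    rw [dd_nil_left] at h2
    exact ⟨List.length_eq_zero_iff.mp h2, rfl⟩
  | cons g t => rw [hl_cons] at h; omega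

lemma to_hub (n : ℕ) : ∀ (a : Node ρ × QQ ρ M s s') (σ : W ρ M s), lev p1 σ a ≤ n →
    RR (GG S S') (n + 1) (Sum.inl a) (Sum.inr σ) := by
  induction n with
  | zero =>
    intro a σ h
    have h2 := level_zero (Nat.le_zero.mp h)
    apply RR_of_NN
    refine ⟨h2.1, ?_⟩
    have h3 : (p1 a.2)⁻¹ σ = W.nil ρ M s := Subtype.ext h2.2
    rw [Equiv.Perm.inv_eq_iff_eq] at h3
    exact h3.symm
  | succ n ih =>
    intro a σ h
    by_cases h0 : lev p1 σ a = 0
    · exact (ih a σ (by omega)).mono (by omega)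
    · obtain ⟨b, hb, hb2⟩ := lev_down (γ := cr S S') (p1_cr S S') σ a (by omega)
      have h1 : RR (GG S S') 1 (Sum.inl a) (Sum.inl b) := RR_of_NN S S' hb
      exact (h1.trans (ih b σ (by omega))).mono (by omega)

end graph

end Pool.Agent.H659.GirthDiam
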