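import Pool.Agent.H659.GirthDiamD

/-!
# Girth versus diameter: diameter, degrees and girth of the graph
-/

set_option autoImplicit false

namespace Pool.Agent.H659.GirthDiam

variable {ρ M s s' : ℕ} (S : Sys ρ M s) (S' : Sys ρ M s')

/-- the special property of the first system. -/
def Slot (S : Sys ρ M s) : Prop :=
  ∀ (l : {l : List Bool // l.length = ρ}) (x : W ρ M s), ρ + s + 1 ≤ level l.1 x.1 →
    ∃ g : Gen ρ M, g.1 = l ∧ level l.1 (S.a g x).1 = ρ + s

section diameter

variable {S} (hS : Slot S)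
include hS

lemma leaf_to_hub (a : Node ρ × QQ ρ M s s') (ha : a.1.1.length = ρ) (σ : W ρ M s) :
    RR (GG S S') (ρ + s + 2) (Sum.inl a) (Sum.inr σ) := by
  by_cases h : lev p1 σ a ≤ ρ + s
  · exact (to_hub S S' _ a σ h).mono (by omega)
  · obtain ⟨g, hg, hg2⟩ := hS ⟨a.1.1, ha⟩ ((p1 a.2)⁻¹ σ) (by
      have : ¬ level a.1.1 ((p1 a.2)⁻¹ σ).1 ≤ ρ + s := h
      simp only; omega)
    have h1 : RR (GG S S') 1 (Sum.inl a) (Sum.inl (a.1, a.2 * cr S S' g)) := by
      apply RR_of_NN
      exact Or.inr (Or.inr ⟨g, by rw [hg], rfl, rfl⟩)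
    have h2 : lev p1 σ (a.1, a.2 * cr S S' g) ≤ ρ + s := by
      unfold lev
      simp only
      rw [coord_cross (S := S) (π := p1) (γ := cr S S') (p1_cr S S')]
      exact hg2.le
    exact (h1.trans (to_hub S S' _ _ σ h2)).mono (by omega)

lemma node_to_hub (k : ℕ) : ∀ (a : Node ρ × QQ ρ M s s') (_ : a.1.1.length + k = ρ)
    (σ : W ρ M s), RR (GG S S') (k + (ρ + s + 2)) (Sum.inl a) (Sum.inr σ) := by
  induction k with
  | zero =>
    intro a ha σ
    exact (leaf_to_hub S' hS a (by omega) σ).mono (by omega)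
  | succ k ih =>
    intro a ha σ
    have hlen : (a.1.1 ++ [true]).length ≤ ρ := by simp; omega
    have h1 : RR (GG S S') 1 (Sum.inl a) (Sum.inl (⟨a.1.1 ++ [true], hlen⟩, a.2)) := by
      apply RR_of_NN
      exact Or.inl ⟨true, rfl, rfl⟩
    have h2 := ih (⟨a.1.1 ++ [true], hlen⟩, a.2) (by simp; omega) σ
    exact (h1.trans h2).mono (by omega)

end diameter

lemma own_hub (a : Node ρ × QQ ρ M s s') :
    RR (GG S S') (a.1.1.length + 1) (Sum.inl a) (Sum.inr (a.2.1 (W.nil ρ M s))) := by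
  apply to_hub
  unfold lev
  have h : (p1 a.2)⁻¹ (a.2.1 (W.nil ρ M s)) = W.nil ρ M s := by
    rw [Equiv.Perm.inv_eq_iff_eq]; rfl
  rw [h]
  simp [W.nil, level, hl, lf, dd]

/-- a group element with prescribed hub. -/
lemma exists_q (σ : W ρ M s) (r : Equiv.Perm (W ρ M s')) :
    ∃ q : QQ ρ M s s', q.1 (W.nil ρ M s) = σ ∧ q.2 = r := by
  classical
  exact ⟨(Equiv.swap (W.nil ρ M s) σ, r), by simp, rfl⟩

lemma all_close {S : Sys ρ M s} (hS : Slot S) (a b : VV ρ M s s') :
    RR (GG S S') (2 * ρ + s + 3) a b := by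
  have aux : ∀ a b : Node ρ × QQ ρ M s s', a.1.1.length ≤ b.1.1.length →
      RR (GG S S') (2 * ρ + s + 3) (Sum.inl a) (Sum.inl b) := by
    intro a b hab
    have h1 := own_hub S S' a
    have hb := b.1.2
    have h2 := node_to_hub S' hS (ρ - b.1.1.length) b (by omega) (a.2.1 (W.nil ρ M s))
    exact (h1.trans h2.symm).mono (by omega)
  have aux2 : ∀ (a : Node ρ × QQ ρ M s s') (σ : W ρ M s),
      RR (GG S S') (2 * ρ + s + 2) (Sum.inl a) (Sum.inr σ) := by
    intro a σ
    have ha := a.1.2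
    exact (node_to_hub S' hS (ρ - a.1.1.length) a (by omega) σ).mono (by omega)
  rcases a with a | σ <;> rcases b with b | τ
  · rcases le_total a.1.1.length b.1.1.length with h | h
    · exact aux a b h
    · exact (aux b a h).symm
  · exact (aux2 a τ).mono (by omega)
  · exact (aux2 b σ).symm.mono (by omega)
  · obtain ⟨q, hq, -⟩ := exists_q (s' := s') σ 1
    have h1 : RR (GG S S') 1 (Sum.inl (⟨[], by simp⟩, q)) (Sum.inr σ) := by
      apply RR_of_NN
      exact ⟨rfl, hq⟩
    exact (h1.symm.trans (aux2 _ τ)).mono (by omega)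

lemma connected {S : Sys ρ M s} (hS : Slot S) : (GG S S').Connected := by
  have : Nonempty (VV ρ M s s') := ⟨Sum.inr (W.nil ρ M s)⟩
  refine ⟨fun a b => ?_⟩
  obtain ⟨p, -⟩ := all_close S' hS a b
  exact ⟨p⟩

lemma diam_le {S : Sys ρ M s} (hS : Slot S) : (GG S S').diam ≤ 2 * ρ + s + 3 := by
  have : Nonempty (VV ρ M s s') := ⟨Sum.inr (W.nil ρ M s)⟩
  obtain ⟨a, b, hab⟩ := (GG S S').exists_dist_eq_diam
  rw [← hab]
  obtain ⟨p, hp⟩ := all_close S' hS a b
  exact (SimpleGraph.dist_le p).trans hp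

/-! ### degrees -/

lemma three_nbrs (hρ : 1 ≤ ρ) (hM : 0 < M) (hs' : 1 ≤ s') (a : VV ρ M s s') :
    ∃ x y z, (GG S S').Adj a x ∧ (GG S S').Adj a y ∧ (GG S S').Adj a z ∧
      x ≠ y ∧ x ≠ z ∧ y ≠ z := by
  classical
  rcases a with a | σ
  · by_cases hleaf : a.1.1.length = ρ
    · -- leaf : parent and two crossings
      have hne : a.1.1 ≠ [] := by
        intro h; rw [h] at hleaf; simp at hleaf; omega
      let g0 : Gen ρ M := (⟨a.1.1, hleaf⟩, (⟨0, hM⟩, true))
      let g1 : Gen ρ M := (⟨a.1.1, hleaf⟩, (⟨0, hM⟩, false))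
      have hval : ∀ g : Gen ρ M, ((S'.perm g) (W.nil ρ M s')).1 = [g] := by
        intro g
        have h1 : level g.1.1 (W.nil ρ M s').1 < ρ + s' := by
          have : level g.1.1 (W.nil ρ M s').1 = ρ := level_leaf_nil g
          omega
        exact S'.up g (W.nil ρ M s') (by simp [W.nil]) h1
      have hnontriv : ∀ g : Gen ρ M, a.2 ≠ a.2 * cr S S' g := by
        intro g h
        have h2 : cr S S' g = 1 := by simpa using h.symm
        have h3 : S'.perm g = 1 := congrArg Prod.snd h2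
        have h4 := hval g
        rw [h3] at h4
        simp [W.nil] at h4
      have hdist : a.2 * cr S S' g0 ≠ a.2 * cr S S' g1 := by
        intro h
        have h2 : cr S S' g0 = cr S S' g1 := mul_left_cancel h
        have h3 : S'.perm g0 = S'.perm g1 := congrArg Prod.snd h2
        have h4 := hval g0
        rw [h3, hval g1] at h4
        simp [g0, g1] at h4
      obtain ⟨w, c, hwc⟩ : ∃ w c, a.1.1 = w ++ [c] := by
        rcases List.eq_nil_or_concat a.1.1 with h0 | ⟨w, c, hc⟩
        · exact absurd h0 hne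
        · exact ⟨w, c, by simpa using hc⟩
      have hlen : w.length ≤ ρ := by
        rw [hwc] at hleaf; simp at hleaf; omega
      have hw : w ≠ a.1.1 := by
        intro h
        rw [h] at hwc
        have := congrArg List.length hwc
        simp at this
      refine ⟨Sum.inl (⟨w, hlen⟩, a.2), Sum.inl (a.1, a.2 * cr S S' g0),
        Sum.inl (a.1, a.2 * cr S S' g1), ⟨?_, Or.inr (Or.inl ⟨c, hwc, rfl⟩)⟩,
        ⟨?_, Or.inr (Or.inr ⟨g0, rfl, rfl, rfl⟩)⟩, ⟨?_, Or.inr (Or.inr ⟨g1, rfl, rfl, rfl⟩)⟩,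
        ?_, ?_, ?_⟩
      · intro h
        have h2 := congrArg (fun z : Node ρ × QQ ρ M s s' => z.1.1) (Sum.inl.inj h)
        exact hw h2.symm
      · intro h
        have h2 := congrArg (fun z : Node ρ × QQ ρ M s s' => z.2) (Sum.inl.inj h)
        exact hnontriv g0 h2
      · intro h
        have h2 := congrArg (fun z : Node ρ × QQ ρ M s s' => z.2) (Sum.inl.inj h)
        exact hnontriv g1 h2
      · intro h
        have h2 := congrArg (fun z : Node ρ × QQ ρ M s s' => z.2) (Sum.inl.inj h)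
        exact hnontriv g0 h2
      · intro h
        have h2 := congrArg (fun z : Node ρ × QQ ρ M s s' => z.2) (Sum.inl.inj h)
        exact hnontriv g1 h2
      · intro h
        have h2 := congrArg (fun z : Node ρ × QQ ρ M s s' => z.2) (Sum.inl.inj h)
        exact hdist h2
    · -- internal node : two children and parent or hub
      have hlt : a.1.1.length < ρ := lt_of_le_of_ne a.1.2 hleaf
      have hl1 : ∀ c, (a.1.1 ++ [c]).length ≤ ρ := by intro c; simp; omega
      have hchild : ∀ c, (GG S S').Adj (Sum.inl a) (Sum.inl (⟨a.1.1 ++ [c], hl1 c⟩, a.2)) := by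
        intro c
        refine ⟨?_, Or.inl ⟨c, rfl, rfl⟩⟩
        intro h
        have h2 := congrArg (fun z : Node ρ × QQ ρ M s s' => z.1.1) (Sum.inl.inj h)
        simp at h2
      have hcc : (Sum.inl (⟨a.1.1 ++ [true], hl1 true⟩, a.2) : VV ρ M s s') ≠
          Sum.inl (⟨a.1.1 ++ [false], hl1 false⟩, a.2) := by
        intro h
        have h2 := congrArg (fun z : Node ρ × QQ ρ M s s' => z.1.1) (Sum.inl.inj h)
        simp at h2
      by_cases hroot : a.1.1 = []
      · refine ⟨_, _, Sum.inr (a.2.1 (W.nil ρ M s)), hchild true, hchild false,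
          ⟨by simp, ⟨hroot, rfl⟩⟩, hcc, by simp, by simp⟩
      · obtain ⟨w, c, hwc⟩ : ∃ w c, a.1.1 = w ++ [c] := by
          rcases List.eq_nil_or_concat a.1.1 with h0 | ⟨w, c, hc⟩
          · exact absurd h0 hroot
          · exact ⟨w, c, by simpa using hc⟩
        have hlen : w.length ≤ ρ := by
          rw [hwc] at hlt; simp at hlt; omega
        have hlen2 : a.1.1.length = w.length + 1 := by rw [hwc]; simp
        have hpar : ∀ d, (Sum.inl (⟨a.1.1 ++ [d], hl1 d⟩, a.2) : VV ρ M s s') ≠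
            Sum.inl (⟨w, hlen⟩, a.2) := by
          intro d h
          have h2 := congrArg (fun z : Node ρ × QQ ρ M s s' => z.1.1.length) (Sum.inl.inj h)
          simp at h2
          omega
        refine ⟨_, _, Sum.inl (⟨w, hlen⟩, a.2), hchild true, hchild false,
          ⟨?_, Or.inr (Or.inl ⟨c, hwc, rfl⟩)⟩, hcc, hpar true, hpar false⟩
        intro h
        have h2 := congrArg (fun z : Node ρ × QQ ρ M s s' => z.1.1.length) (Sum.inl.inj h)
        simp at h2
        omega
  · -- hub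
    let g0 : Gen ρ M := (⟨List.replicate ρ true, by simp⟩, (⟨0, hM⟩, true))
    let g1 : Gen ρ M := (⟨List.replicate ρ true, by simp⟩, (⟨0, hM⟩, false))
    have hval : ∀ g : Gen ρ M, ((S'.perm g) (W.nil ρ M s')).1 = [g] := by
      intro g
      have h1 : level g.1.1 (W.nil ρ M s').1 < ρ + s' := by
        have : level g.1.1 (W.nil ρ M s').1 = ρ := level_leaf_nil g
        omega
      exact S'.up g (W.nil ρ M s') (by simp [W.nil]) h1
    have h01 : (1 : Equiv.Perm (W ρ M s')) ≠ S'.perm g0 := by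
      intro h
      have h4 := hval g0
      rw [← h] at h4
      simp [W.nil] at h4
    have h02 : (1 : Equiv.Perm (W ρ M s')) ≠ S'.perm g1 := by
      intro h
      have h4 := hval g1
      rw [← h] at h4
      simp [W.nil] at h4
    have h12 : S'.perm g0 ≠ S'.perm g1 := by
      intro h
      have h4 := hval g0
      rw [h, hval g1] at h4
      simp [g0, g1] at h4
    obtain ⟨q0, hq0, hq0'⟩ := exists_q (s' := s') σ 1
    obtain ⟨q1, hq1, hq1'⟩ := exists_q (s' := s') σ (S'.perm g0)
    obtain ⟨q2, hq2, hq2'⟩ := exists_q (s' := s') σ (S'.perm g1)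
    refine ⟨Sum.inl (⟨[], by simp⟩, q0), Sum.inl (⟨[], by simp⟩, q1),
      Sum.inl (⟨[], by simp⟩, q2), ⟨by simp, rfl, hq0⟩, ⟨by simp, rfl, hq1⟩,
      ⟨by simp, rfl, hq2⟩, ?_, ?_, ?_⟩
    · intro h
      have h2 := congrArg (fun z : Node ρ × QQ ρ M s s' => z.2.2) (Sum.inl.inj h)
      simp only [hq0', hq1'] at h2
      exact h01 h2
    · intro h
      have h2 := congrArg (fun z : Node ρ × QQ ρ M s s' => z.2.2) (Sum.inl.inj h)
      simp only [hq0', hq2'] at h2
      exact h02 h2
    · intro h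
      have h2 := congrArg (fun z : Node ρ × QQ ρ M s s' => z.2.2) (Sum.inl.inj h)
      simp only [hq1', hq2'] at h2
      exact h12 h2

end Pool.Agent.H659.GirthDiam
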